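import Pool.Agent.K1H27.TP.Stm

/-! Piece TP-LINE: a path against a curve below its chord (from KL). -/

set_option autoImplicit false

namespace Pool.Agent.K1H90.TP

open MeasureTheory Set Pool.Agent.K1H27.TP

lemma ii {f : ℝ → ℝ} (hf : Measurable f) {C : ℝ} (hb : ∀ x, |f x| ≤ C) (a b : ℝ) :
    IntervalIntegrable f volume a b :=
  (intervalIntegrable_const (c := C)).mono_fun hf.aestronglyMeasurable
    (Filter.Eventually.of_forall fun x => by
      change |f x| ≤ |C|
      exact (hb x).trans (le_abs_self C))

lemma tri {u v : ℝ} (huv : u ≤ v) {e φ : ℝ → ℝ} (he : Measurable e) (hφ : Measurable φ)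
    {Ce Cp : ℝ} (hCe : ∀ x, |e x| ≤ Ce) (hCp : ∀ x, |φ x| ≤ Cp) :
    ∫ t in u..v, e t * ∫ s in u..t, φ s = ∫ s in u..v, φ s * ∫ t in s..v, e t := by
  rw [intervalIntegral.integral_of_le huv, intervalIntegral.integral_of_le huv]
  set μ : Measure ℝ := volume.restrict (Ioc u v) with hμ
  set F : ℝ → ℝ → ℝ := fun t s => if s ≤ t then e t * φ s else 0 with hF
  have h1 : ∀ t ∈ Ioc u v, e t * ∫ s in u..t, φ s = ∫ s, F t s ∂μ := by
    intro t ht
    rw [intervalIntegral.integral_of_le ht.1.le, ← integral_const_mul]
    have e1 : (fun s => F t s) = (Iic t).indicator (fun s => e t * φ s) := by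
      funext s
      simp only [hF, indicator, mem_Iic]
    rw [e1, integral_indicator measurableSet_Iic, hμ, Measure.restrict_restrict measurableSet_Iic]
    congr 2
    ext x
    simp only [mem_Ioc, mem_inter_iff, mem_Iic]
    constructor
    · rintro ⟨h1, h2⟩
      exact ⟨h2, h1, h2.trans ht.2⟩
    · rintro ⟨h1, h2, _⟩
      exact ⟨h2, h1⟩
  have h2 : ∀ s ∈ Ioc u v, φ s * ∫ t in s..v, e t = ∫ t, F t s ∂μ := by
    intro s hs
    rw [intervalIntegral.integral_of_le hs.2, ← integral_Icc_eq_integral_Ioc,
      ← integral_const_mul]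
    have e1 : (fun t => F t s) = (Ici s).indicator (fun t => φ s * e t) := by
      funext t
      simp only [hF, indicator, mem_Ici]
      split_ifs
      · ring
      · rfl
    rw [e1, integral_indicator measurableSet_Ici, hμ, Measure.restrict_restrict measurableSet_Ici]
    congr 2
    ext x
    simp only [mem_Ioc, mem_inter_iff, mem_Ici, mem_Icc]
    constructor
    · rintro ⟨h1, h2⟩
      exact ⟨h1, hs.1.trans_le h1, h2⟩
    · rintro ⟨h1, _, h2⟩
      exact ⟨h1, h2⟩
  rw [setIntegral_congr_fun measurableSet_Ioc h1, setIntegral_congr_fun measurableSet_Ioc h2]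
  refine integral_integral_swap ?_
  have hfin : IsFiniteMeasure μ := by
    rw [hμ]
    exact ⟨by rw [Measure.restrict_apply_univ, Real.volume_Ioc]; exact ENNReal.ofReal_lt_top⟩
  have hm : Measurable (Function.uncurry F) := by
    have : Function.uncurry F = fun p : ℝ × ℝ => if p.2 ≤ p.1 then e p.1 * φ p.2 else 0 := rfl
    rw [this]
    exact Measurable.ite (measurableSet_le measurable_snd measurable_fst)
      ((he.comp measurable_fst).mul (hφ.comp measurable_snd)) measurable_const
  have hCe0 : 0 ≤ Ce := (abs_nonneg _).trans (hCe 0)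
  have hCp0 : 0 ≤ Cp := (abs_nonneg _).trans (hCp 0)
  refine Integrable.mono' (integrable_const (Ce * Cp)) hm.aestronglyMeasurable
    (Filter.Eventually.of_forall fun p => ?_)
  simp only [Function.uncurry, hF, Real.norm_eq_abs]
  split_ifs
  · rw [abs_mul]
    exact mul_le_mul (hCe _) (hCp _) (abs_nonneg _) hCe0
  · rw [abs_zero]
    exact mul_nonneg hCe0 hCp0

lemma lip {e : ℝ → ℝ} (he : Measurable e) (h1 : ∀ x, |e x| ≤ 1) (v x y : ℝ) :
    |(∫ t in x..v, e t) - ∫ t in y..v, e t| ≤ |x - y| := by
  have h2 := intervalIntegral.norm_integral_le_of_norm_le_const (a := x) (b := y) (f := e) (C := 1)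
    (fun t _ => by rw [Real.norm_eq_abs]; exact h1 t)
  rw [← intervalIntegral.integral_add_adjacent_intervals (ii he h1 x y) (ii he h1 y v),
    add_sub_cancel_right]
  rw [Real.norm_eq_abs, one_mul, abs_sub_comm y x] at h2
  exact h2

theorem t_LINE (hKL : S_KL) : S_LINE := by
  intro u v ψ K huv hψ hψ1 hK hKc
  rcases huv.eq_or_lt with rfl | hlt
  · simp [U, pm, nm]
  have hl : 0 < v - u := sub_pos.2 hlt
  have hne : v - u ≠ 0 := hl.ne'
  set P : ℝ → ℝ := fun t => ∫ s in u..t, ψ s with hP
  set c : ℝ := P v / (v - u) with hc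
  have hψi : ∀ a b, IntervalIntegrable ψ volume a b := ii hψ hψ1
  set A : ℝ := pm ψ u v with hA
  set B : ℝ := nm ψ u v with hB
  have hm1 : Measurable fun s => max (ψ s) 0 := hψ.max measurable_const
  have hm2 : Measurable fun s => max (-ψ s) 0 := hψ.neg.max measurable_const
  have hb1 : ∀ s, |max (ψ s) 0| ≤ 1 := fun s => by
    rw [abs_of_nonneg (le_max_right _ _)]
    exact max_le ((le_abs_self _).trans (hψ1 s)) zero_le_one
  have hb2 : ∀ s, |max (-ψ s) 0| ≤ 1 := fun s => by
    rw [abs_of_nonneg (le_max_right _ _)]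
    exact max_le ((neg_le_abs _).trans (hψ1 s)) zero_le_one
  have hPv : P v = A - B := by
    rw [hA, hB, pm, nm, ← intervalIntegral.integral_sub (ii hm1 hb1 _ _) (ii hm2 hb2 _ _)]
    refine intervalIntegral.integral_congr fun s _ => ?_
    try dsimp only
    rcases le_total 0 (ψ s) with h | h
    · rw [max_eq_left h, max_eq_right (by linarith)]; ring
    · rw [max_eq_right h, max_eq_left (by linarith)]; ring
  have hcv : c * (v - u) = P v := by rw [hc]; field_simp
  -- the deviation from the chord
  set φ : ℝ → ℝ := fun s => ψ s - c with hφd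
  have hφ : Measurable φ := hψ.sub measurable_const
  have hφb : ∀ x, |φ x| ≤ 1 + |c| := fun x => by
    have h1 := hψ1 x
    have h2 : |ψ x - c| ≤ |ψ x| + |c| := abs_sub _ _
    exact h2.trans (by linarith)
  set D : ℝ → ℝ := fun t => ∫ s in u..t, φ s with hD
  have hDP : ∀ t, D t = P t - (t - u) * c := by
    intro t
    rw [hD, hP]
    simp only [hφd]
    rw [intervalIntegral.integral_sub (hψi _ _) intervalIntegrable_const,
      intervalIntegral.integral_const, smul_eq_mul]
  have hDv : D v = 0 := by rw [hDP, ← hcv]; ring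
  have hDc : Continuous D := intervalIntegral.continuous_primitive (ii hφ hφb) u
  have hPc : Continuous P := intervalIntegral.continuous_primitive hψi u
  set e : ℝ → ℝ := fun t => if 0 ≤ D t then 1 else -1 with he
  have hem : Measurable e :=
    Measurable.ite (measurableSet_le measurable_const hDc.measurable) measurable_const
      measurable_const
  have heb : ∀ x, |e x| ≤ 1 := fun x => by
    rw [he]; simp only; split_ifs <;> simp
  have heD : ∀ t, e t * D t = |D t| := fun t => by
    rw [he]; simp only
    split_ifs with h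
    · rw [one_mul, abs_of_nonneg h]
    · rw [abs_of_neg (not_le.1 h)]; ring
  set g : ℝ → ℝ := fun s => ∫ t in s..v, e t with hg
  have hgl : ∀ x y, |g x - g y| ≤ |x - y| := fun x y => lip hem heb v x y
  have hgc : Continuous g := by
    refine Metric.continuous_iff.2 fun x ε hε => ⟨ε, hε, fun y hy => ?_⟩
    rw [Real.dist_eq] at hy ⊢
    exact (hgl y x).trans_lt hy
  set m : ℝ := (∫ s in u..v, g s) / (v - u) with hm
  set h : ℝ → ℝ := fun s => g s - m with hh
  have hhc : Continuous h := hgc.sub continuous_const
  have hh0 : ∫ s in u..v, h s = 0 := by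
    rw [hh, intervalIntegral.integral_sub (hgc.intervalIntegrable _ _) intervalIntegrable_const,
      intervalIntegral.integral_const, smul_eq_mul, hm]
    field_simp
    ring
  have hhl : ∀ x ∈ Icc u v, ∀ y ∈ Icc u v, |h x - h y| ≤ |x - y| := fun x _ y _ => by
    rw [hh]; simp only; rw [sub_sub_sub_cancel_right]; exact hgl x y
  have k1 := hKL u v h _ hlt hhl hhc hh0 hm1 (fun x => le_max_right _ _)
    (fun x => (le_abs_self _).trans (hb1 x))
  have k2 := hKL u v (fun s => -h s) _ hlt (fun x hx y hy => by
      rw [show -h x - -h y = -(h x - h y) by ring, abs_neg]; exact hhl x hx y hy) hhc.neg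
    (by rw [intervalIntegral.integral_neg, hh0, neg_zero]) hm2 (fun x => le_max_right _ _)
    (fun x => (le_abs_self _).trans (hb2 x))
  -- the integral of the deviation
  have key : ∫ t in u..v, |D t| = ∫ s in u..v, ψ s * h s := by
    have e1 : ∫ t in u..v, |D t| = ∫ t in u..v, e t * ∫ s in u..t, φ s :=
      intervalIntegral.integral_congr fun t _ => (heD t).symm
    rw [e1, tri huv hem hφ heb hφb]
    have e2 : ∀ s, φ s * (∫ t in s..v, e t) = (ψ s * h s - c * h s) + m * φ s := by
      intro s
      simp only [hh, hφd, hg]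
      ring
    rw [intervalIntegral.integral_congr fun s _ => e2 s]
    have i1 : IntervalIntegrable (fun s => ψ s * h s) volume u v :=
      (hψi u v).mul_continuousOn hhc.continuousOn
    have i2 : IntervalIntegrable (fun s => c * h s) volume u v :=
      (continuous_const.mul hhc).intervalIntegrable _ _
    have i3 : IntervalIntegrable (fun s => m * φ s) volume u v := (ii hφ hφb u v).const_mul m
    rw [intervalIntegral.integral_add (i1.sub i2) i3, intervalIntegral.integral_sub i1 i2,
      intervalIntegral.integral_const_mul, intervalIntegral.integral_const_mul, hh0]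
    have : ∫ s in u..v, φ s = 0 := hDv
    rw [this]
    ring
  have split : ∫ s in u..v, ψ s * h s =
      (∫ s in u..v, max (ψ s) 0 * h s) + ∫ s in u..v, max (-ψ s) 0 * -h s := by
    have i4 : IntervalIntegrable (fun s => max (-ψ s) 0 * -h s) volume u v :=
      (ii hm2 hb2 u v).mul_continuousOn hhc.neg.continuousOn
    rw [← intervalIntegral.integral_add ((ii hm1 hb1 u v).mul_continuousOn hhc.continuousOn) i4]
    refine intervalIntegral.integral_congr fun s _ => ?_
    try dsimp only
    rcases le_total 0 (ψ s) with h' | h'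
    · rw [max_eq_left h', max_eq_right (by linarith)]; ring
    · rw [max_eq_right h', max_eq_left (by linarith)]; ring
  have hchord : ∫ t in u..v, (t - u) * c = (A - B) * (v - u) / 2 := by
    rw [intervalIntegral.integral_mul_const, intervalIntegral.integral_sub
      intervalIntegral.intervalIntegrable_id intervalIntegrable_const, integral_id,
      intervalIntegral.integral_const, smul_eq_mul, ← hPv, ← hcv]
    ring
  -- comparison
  have hKi : IntervalIntegrable K volume u v := by
    apply ContinuousOn.intervalIntegrable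
    rw [uIcc_of_le huv]; exact hK
  have hPK : IntervalIntegrable (fun t => |P t - K t|) volume u v := by
    apply ContinuousOn.intervalIntegrable
    rw [uIcc_of_le huv]; exact (hPc.continuousOn.sub hK).abs
  have cmp : (∫ t in u..v, |P t - K t|) + ∫ t in u..v, K t ≤
      (∫ t in u..v, |D t|) + ∫ t in u..v, (t - u) * c := by
    rw [← intervalIntegral.integral_add hPK hKi, ← intervalIntegral.integral_add
      (hDc.abs.intervalIntegrable _ _) ((by fun_prop : Continuous fun t : ℝ => (t - u) * c).intervalIntegrable _ _)]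
    refine intervalIntegral.integral_mono_on huv (hPK.add hKi)
      ((hDc.abs.intervalIntegrable _ _).add
        ((by fun_prop : Continuous fun t : ℝ => (t - u) * c).intervalIntegrable _ _)) fun t ht => ?_
    have h1 : K t ≤ (t - u) * c := by
      have h2 := hKc t ht
      have h3 : (t - u) * P v = ((t - u) * c) * (v - u) := by rw [← hcv]; ring
      have h4 : K t * (v - u) ≤ ((t - u) * c) * (v - u) := by rw [← h3]; exact h2
      exact le_of_mul_le_mul_right h4 hl
    rw [hDP]
    rcases abs_cases (P t - K t) with ⟨h2, _⟩ | ⟨h2, _⟩ <;>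
      rcases abs_cases (P t - (t - u) * c) with ⟨h3, _⟩ | ⟨h3, _⟩ <;> simp only [h2, h3] <;>
      linarith
  have hU : U ψ u v = A * (v - u) - (A ^ 2 + B ^ 2) / 2 := rfl
  change ∫ t in u..v, |P t - K t| ≤ _
  have k1' : ∫ s in u..v, max (ψ s) 0 * h s ≤ A * (v - u - A) / 2 := k1
  have k2' : ∫ s in u..v, max (-ψ s) 0 * -h s ≤ B * (v - u - B) / 2 := k2
  rw [key, split, hchord] at cmp
  rw [hU]
  nlinarith [cmp, k1', k2']

end Pool.Agent.K1H90.TP
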